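import Pool.Agent.U762.DZ.Stm

/-!
# Project DZ, package HIT: the annealed chain hits `|x| < M` almost surely
-/

set_option autoImplicit false

namespace Pool.Agent.U346.DZ

open Finset MeasureTheory Filter Pool.Agent.U762.RP Pool.Agent.U762.DZ

section op

variable {d : ℕ} {m r : ℤ → ℤ} {w : ℤ → ℤ → ℝ} {B : ℤ → ℕ} {M : ℝ}

lemma P_mono (hw : ∀ x u, 0 ≤ w x u) {F G : ℤ → ℝ} (h : ∀ y, F y ≤ G y) (x : ℤ) :
    P d m r w B M F x ≤ P d m r w B M G x := by
  unfold P
  split_ifs
  · exact le_rfl
  · exact sum_le_sum fun u _ => mul_le_mul_of_nonneg_left (h _) (hw x u)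

lemma P_mul (c : ℝ) (F : ℤ → ℝ) :
    P d m r w B M (fun y => c * F y) = fun x => c * P d m r w B M F x := by
  funext x
  unfold P
  split_ifs
  · simp
  · rw [mul_sum]
    exact sum_congr rfl fun u _ => by ring

lemma it_mono (hw : ∀ x u, 0 ≤ w x u) {F G : ℤ → ℝ} (h : ∀ y, F y ≤ G y) (k : ℕ) :
    ∀ x, (P d m r w B M)^[k] F x ≤ (P d m r w B M)^[k] G x := by
  induction k with
  | zero => exact h
  | succ k ih =>
    intro x
    rw [Function.iterate_succ_apply', Function.iterate_succ_apply']
    exact P_mono hw ih x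

lemma it_mul (c : ℝ) (F : ℤ → ℝ) (k : ℕ) :
    (P d m r w B M)^[k] (fun y => c * F y) = fun x => c * (P d m r w B M)^[k] F x := by
  induction k with
  | zero => rfl
  | succ k ih =>
    rw [Function.iterate_succ_apply', ih, P_mul]
    funext x
    rw [Function.iterate_succ_apply']

lemma P_nonneg (hw : ∀ x u, 0 ≤ w x u) {F : ℤ → ℝ} (h : ∀ y, 0 ≤ F y) (x : ℤ) :
    0 ≤ P d m r w B M F x := by
  unfold P
  split_ifs
  · exact le_rfl
  · exact sum_nonneg fun u _ => mul_nonneg (hw x u) (h _)

lemma ind_nonneg (y : ℤ) : 0 ≤ ind M y := by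
  unfold ind; split_ifs <;> norm_num

lemma ind_le_one (y : ℤ) : ind M y ≤ 1 := by
  unfold ind; split_ifs <;> norm_num

lemma P_ind (hw : ∀ x u, 0 ≤ w x u) (hm : ∀ x, ∑ u ∈ Icc (-(B x : ℤ)) (B x), w x u ≤ 1) (x : ℤ) :
    P d m r w B M (ind M) x ≤ ind M x := by
  by_cases hx : |(x : ℝ)| < M
  · unfold P; rw [if_pos hx]; exact ind_nonneg x
  · have h1 : ind M x = 1 := by unfold ind; rw [if_neg hx]
    rw [h1]
    unfold P; rw [if_neg hx]
    refine le_trans (sum_le_sum fun u _ => ?_) (hm x)
    calc w x u * ind M (T d m r x + u) ≤ w x u * 1 :=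
          mul_le_mul_of_nonneg_left (ind_le_one _) (hw x u)
      _ = w x u := mul_one _

lemma it_nonneg (hw : ∀ x u, 0 ≤ w x u) (k : ℕ) :
    ∀ x, 0 ≤ (P d m r w B M)^[k] (ind M) x := by
  induction k with
  | zero => exact ind_nonneg
  | succ k ih =>
    intro x
    rw [Function.iterate_succ_apply']
    exact P_nonneg hw ih x

lemma it_anti (hw : ∀ x u, 0 ≤ w x u) (hm : ∀ x, ∑ u ∈ Icc (-(B x : ℤ)) (B x), w x u ≤ 1)
    (x : ℤ) : Antitone fun n : ℕ => (P d m r w B M)^[n] (ind M) x := by
  refine antitone_nat_of_succ_le fun n => ?_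
  rw [Function.iterate_succ_apply]
  exact it_mono hw (P_ind hw hm) n x

end op

lemma e_mul_le (t : ℝ) : Real.exp 1 * t ≤ Real.exp t := by
  have h := Real.add_one_le_exp (t - 1)
  have h2 : Real.exp t = Real.exp 1 * Real.exp (t - 1) := by
    rw [← Real.exp_add]; congr 1; ring
  rw [h2]
  exact mul_le_mul_of_nonneg_left (by linarith) (Real.exp_pos 1).le

theorem t_HIT : S_BLK → S_HIT := by
  intro hB d m r hrel hprod δ hδ hδ'
  obtain ⟨A₀, κ, hA₀, hκ, hmain⟩ := hB d m r hrel hprod δ hδ hδ'
  refine ⟨A₀, hA₀, fun A M₀ hA => ?_⟩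
  obtain ⟨M, γ, hM3, hγ0, hγ1, hblk⟩ := hmain A M₀ hA
  refine ⟨M, by linarith, fun w B hlaw => ?_⟩
  have hw := hlaw.nonneg
  have hm := hlaw.mass
  set H : ℕ → ℤ → ℝ := fun n => (P d m r w B M)^[n] (ind M) with hH
  set h : ℤ → ℝ := fun x => ⨅ n : ℕ, H n x with hh
  have hbdd : ∀ x, BddBelow (Set.range fun n : ℕ => H n x) := by
    intro x
    refine ⟨0, ?_⟩
    rintro _ ⟨n, rfl⟩
    exact it_nonneg hw n x
  have hlim : ∀ x, Tendsto (fun n : ℕ => H n x) atTop (nhds (h x)) := fun x =>
    tendsto_atTop_ciInf (it_anti hw hm x) (hbdd x)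
  have hle : ∀ n x, h x ≤ H n x := fun n x => ciInf_le (hbdd x) n
  have hnn : ∀ x, 0 ≤ h x := fun x => le_ciInf fun n => it_nonneg hw n x
  -- invariance
  have hinv : P d m r w B M h = h := by
    funext x
    by_cases hx : |(x : ℝ)| < M
    · have e1 : P d m r w B M h x = 0 := by unfold P; rw [if_pos hx]
      have e2 : h x ≤ 0 := by
        refine (hle 0 x).trans ?_
        simp only [hH, Function.iterate_zero, id_eq]
        unfold ind
        rw [if_pos hx]
      rw [e1]
      exact le_antisymm (hnn x) e2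
    · have t1 : Tendsto (fun n : ℕ => P d m r w B M (H n) x) atTop
          (nhds (P d m r w B M h x)) := by
        unfold P
        simp only [if_neg hx]
        exact tendsto_finsetSum _ fun u _ => (hlim _).const_mul _
      have t2 : Tendsto (fun n : ℕ => P d m r w B M (H n) x) atTop (nhds (h x)) := by
        have e : (fun n : ℕ => P d m r w B M (H n) x) = fun n => H (n + 1) x := by
          funext n
          simp only [hH, Function.iterate_succ_apply']
        rw [e]
        exact (hlim x).comp (tendsto_add_atTop_nat 1)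
      exact tendsto_nhds_unique t1 t2
  have hinvk : ∀ k : ℕ, (P d m r w B M)^[k] h = h := by
    intro k
    induction k with
    | zero => rfl
    | succ k ih => rw [Function.iterate_succ_apply', ih, hinv]
  -- the potential
  set lg : ℤ → ℝ := fun y => if |(y : ℝ)| < M then 0 else Real.log |(y : ℝ)| with hlg
  have hlg1 : ∀ y, ind M y ≤ lg y := by
    intro y
    by_cases hy : |(y : ℝ)| < M
    · simp only [hlg, ind, if_pos hy]; exact le_rfl
    · simp only [hlg, ind, if_neg hy]
      push Not at hy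
      rw [Real.le_log_iff_exp_le (by linarith)]
      have := Real.exp_one_lt_d9
      linarith
  have key : ∀ x : ℤ, M ≤ |(x : ℝ)| →
      (P d m r w B M)^[⌊κ * Real.log |(x : ℝ)|⌋₊] lg x ≤ γ * Real.log |(x : ℝ)| := by
    intro x hx
    set l : ℝ := Real.log |(x : ℝ)| with hl
    have hlpos : 0 < l := Real.log_pos (by linarith)
    have hpt : ∀ y : ℤ, lg y ≤ (l / Real.exp 1) * pw (1 / l) y := by
      intro y
      have hpw : 0 ≤ pw (1 / l) y := by unfold pw; positivity
      by_cases hy : |(y : ℝ)| < M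
      · simp only [hlg, if_pos hy]
        have := Real.exp_pos 1
        positivity
      · simp only [hlg, if_neg hy]
        push Not at hy
        have hy0 : 0 < |(y : ℝ)| := by linarith
        have h1 := e_mul_le (Real.log |(y : ℝ)| / l)
        have h2 : pw (1 / l) y = Real.exp (Real.log |(y : ℝ)| / l) := by
          unfold pw
          rw [Real.rpow_def_of_pos hy0]
          congr 1
          ring
        rw [h2]
        have he := Real.exp_pos 1
        have h3 : (l / Real.exp 1) * (Real.exp 1 * (Real.log |(y : ℝ)| / l)) =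
            Real.log |(y : ℝ)| := by
          field_simp
        calc Real.log |(y : ℝ)| = (l / Real.exp 1) * (Real.exp 1 * (Real.log |(y : ℝ)| / l)) :=
              h3.symm
          _ ≤ _ := mul_le_mul_of_nonneg_left h1 (by positivity)
    have h1 := it_mono (d := d) (m := m) (r := r) (B := B) (M := M) hw hpt ⌊κ * l⌋₊ x
    rw [it_mul] at h1
    have h2 := hblk w B hlaw M x hx
    have he := Real.exp_pos 1
    calc (P d m r w B M)^[⌊κ * l⌋₊] lg x
        ≤ (l / Real.exp 1) * (P d m r w B M)^[⌊κ * l⌋₊] (pw (1 / l)) x := h1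
      _ ≤ (l / Real.exp 1) * (γ * Real.exp 1) := mul_le_mul_of_nonneg_left h2 (by positivity)
      _ = γ * l := by field_simp
  have hind : ∀ j : ℕ, ∀ x, h x ≤ γ ^ j * lg x := by
    intro j
    induction j with
    | zero =>
      intro x
      rw [pow_zero, one_mul]
      exact (hle 0 x).trans (hlg1 x)
    | succ j ih =>
      intro x
      by_cases hx : |(x : ℝ)| < M
      · have e1 : lg x = 0 := by simp only [hlg, if_pos hx]
        have := ih x
        rw [e1, mul_zero] at this ⊢
        exact this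
      · push Not at hx
        have e1 : lg x = Real.log |(x : ℝ)| := by simp only [hlg, if_neg (not_lt.2 hx)]
        have h1 := it_mono (d := d) (m := m) (r := r) (B := B) (M := M) hw ih
          ⌊κ * Real.log |(x : ℝ)|⌋₊ x
        rw [hinvk, it_mul] at h1
        rw [e1]
        calc h x ≤ γ ^ j * (P d m r w B M)^[⌊κ * Real.log |(x : ℝ)|⌋₊] lg x := h1
          _ ≤ γ ^ j * (γ * Real.log |(x : ℝ)|) :=
              mul_le_mul_of_nonneg_left (key x hx) (by positivity)
          _ = γ ^ (j + 1) * Real.log |(x : ℝ)| := by ring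
  intro x
  have hz : h x = 0 := by
    refine le_antisymm ?_ (hnn x)
    have t : Tendsto (fun j : ℕ => γ ^ j * lg x) atTop (nhds (0 * lg x)) :=
      (tendsto_pow_atTop_nhds_zero_of_lt_one hγ0.le hγ1).mul_const _
    rw [zero_mul] at t
    exact ge_of_tendsto' t fun j => hind j x
  have := hlim x
  rw [hz] at this
  exact this

end Pool.Agent.U346.DZ
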